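import Pool.Agent.Lib_helper88.NC.Defs

/-!
# PATH: the covering families from near-constancy and the marginals (helper97)
-/

set_option autoImplicit false

namespace Pool.Agent.PATH.NC

open Finset Pool.Agent.PENT

variable {k : ℕ}

/-- near-constancy over an almost full subset of the box, in the form used below -/
def NCst (p : Prm k) (P00 : ℕ) (C1 δ : ℝ) : Prop := ∃ X₀ : ℕ, ∀ X ≥ X₀, ∀ ρ : ℝ,
  1 / C1 ≤ ρ → ρ ≤ C1 → ∃ O : Finset (ℤ × ℤ × ℤ), O ⊆ AW C1 X ∧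
    (∀ q ∈ O, ρ * X < (q.2.1 : ℝ) ∧ (q.2.1 : ℝ) ≤ 2 * ρ * X) ∧
    (((Box X ρ).filter (fun y => ∀ q ∈ O, q.1 ≠ (y.1 : ℤ) ∨ q.2.1 ≠ (y.2 : ℤ))).card : ℝ) ≤
      δ * X ∧ (∀ q ∈ O, av p X q ≤ 1) ∧
    ∑ q ∈ O, (∑ u ∈ GS p X, Ft p X P00 q u - av p X q) ^ 2 ≤ δ * X ∧
    ∑ q ∈ O, (1 - av p X q) ≤ δ * X

theorem fn_cm_nonneg {g : ℕ → ℝ} (hg : ∀ l, 0 ≤ g l) (m : ℕ) : 0 ≤ cm g m := by
  unfold cm
  exact Finset.prod_nonneg fun l _ => pow_nonneg (hg l) _

theorem fn_W_nonneg (p : Prm k) (X : ℕ) (q : ℤ × ℤ × ℤ) (u : Vec k) : 0 ≤ W p X q u := by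
  unfold W
  split_ifs
  · apply mul_nonneg
    · apply Finset.prod_nonneg
      intro j _
      apply fn_cm_nonneg
      intro l
      unfold wdE alE
      split_ifs <;> norm_num
    · apply Finset.prod_nonneg
      intro j _
      apply fn_cm_nonneg
      intro l
      unfold wyV beV boV
      split_ifs <;> norm_num
  · exact le_rfl

theorem fn_mem {p : Prm k} {X : ℕ} {u : Vec k} (h : u ∈ GS p X) : GP p X u := by
  unfold GS at h
  split_ifs at h with h1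
  · simpa using h
  · simp at h

theorem fn_coord {p : Prm k} {X : ℕ} {u : Vec k} (hu : GP p X u) (j : Fin (k + 1)) :
    0 ≤ (u j).1 ∧ 0 ≤ (u j).2 ∧ 1 ≤ nm (u j) := by
  unfold nm
  by_cases h0 : j = 0
  · rw [h0, hu.first]; norm_num
  · by_cases h1 : j = Fin.last k
    · rw [h1, hu.last]; norm_num
    · have a0 : 1 ≤ j.val := by
        have : j.val ≠ 0 := fun h => h0 (Fin.ext h)
        omega
      have a1 : j.val + 1 ≤ k := by
        have h2 := j.2
        have : j.val ≠ k := fun h => h1 (Fin.ext h)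
        omega
      obtain ⟨b1, b2⟩ := hu.pos j a0 a1
      omega

theorem fn_dt_pos {p : Prm k} (hc : 0 < p.c1) {X : ℕ} {u : Vec k} (hu : GP p X u)
    {i j : Fin (k + 1)} (hij : i < j) : 0 < dt (u i) (u j) := by
  have h1 := hu.sep i j hij
  have h2 : (1 : ℝ) ≤ (nm (u i) : ℝ) := by exact_mod_cast (fn_coord hu i).2.2
  have h3 : (1 : ℝ) ≤ (nm (u j) : ℝ) := by exact_mod_cast (fn_coord hu j).2.2
  have h4 : (0 : ℝ) < (dt (u i) (u j) : ℝ) := by
    refine lt_of_lt_of_le ?_ h1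
    positivity
  exact_mod_cast h4

theorem fn_dE {u : Vec k} (j : Fin k) :
    dE u (j.val + 1) = (dt (u j.castSucc) (u j.succ)).natAbs := by
  unfold dE
  rw [dif_pos ⟨by omega, by omega⟩]
  rfl

theorem fn_fE {p : Prm k} {X : ℕ} (hX : 1 ≤ X) (hk : 2 ≤ k) {u : Vec k} (hu : GP p X u) :
    fE u ∈ Fac p X := by
  classical
  have key : ∀ d : ℕ, EF p X d → d ∈ Icc 1 ⌊(X : ℝ) ^ p.ep⌋₊ := by
    intro d hd
    rw [mem_Icc]
    refine ⟨?_, Nat.le_floor hd.hi⟩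
    have h1 : (0 : ℝ) < (X : ℝ) ^ p.em := Real.rpow_pos_of_pos (by exact_mod_cast hX) _
    have h2 : (0 : ℝ) < d := lt_of_lt_of_le h1 hd.lo
    exact_mod_cast h2
  unfold Fac fE
  rw [mem_filter, mem_product]
  exact ⟨⟨key _ hu.e1, key _ hu.e2⟩, hu.e1, hu.e2, hu.cop 1 k le_rfl (by omega) le_rfl⟩

/-- the path -/
def mkP (q : ℤ × ℤ × ℤ) (u : Vec k) : Pth k := ⟨q.1, q.2.1, q.2.2, u⟩

theorem mkP_inj {q q' : ℤ × ℤ × ℤ} {u u' : Vec k} (h : mkP q u = mkP q' u') :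
    q = q' ∧ u = u' := by
  unfold mkP at h
  rw [Pth.mk.injEq] at h
  obtain ⟨h1, h2, h3, h4⟩ := h
  exact ⟨Prod.ext h1 (Prod.ext h2 h3), h4⟩

theorem mkP_n (q : ℤ × ℤ × ℤ) (u : Vec k) (j : Fin k) : (mkP q u).n j = nj q u j := rfl

theorem fn_AW {C1 : ℝ} {X : ℕ} {q : ℤ × ℤ × ℤ} (h : q ∈ AW C1 X) :
    q.1 * q.2.2 - q.2.1 ^ 2 = 1 ∧ 0 < q.1 ∧ 0 < q.2.1 ∧ 0 < q.2.2 ∧ (X : ℤ) < q.1 ∧
      (q.1 : ℝ) ≤ 2 * X ∧ (q.2.1 : ℝ) ≤ 2 * C1 * X ∧ (q.2.2 : ℝ) ≤ 5 * C1 ^ 2 * X := by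
  unfold AW at h
  rw [mem_filter, mem_product, mem_product, mem_Ioc, mem_Icc, mem_Icc] at h
  obtain ⟨⟨⟨a1, a2⟩, ⟨b1, b2⟩, c1, c2⟩, d1, _⟩ := h
  have hX : (0 : ℤ) ≤ X := Int.natCast_nonneg X
  refine ⟨d1, by omega, by omega, by omega, a1, ?_, ?_, ?_⟩
  · exact_mod_cast a2
  · exact (Int.le_floor.1 b2)
  · exact (Int.le_floor.1 c2)

theorem fn_good {p : Prm k} (hc : 0 < p.c1) {X : ℕ} {u : Vec k} (hu : GP p X u)
    {q : ℤ × ℤ × ℤ} (hq : q.1 * q.2.2 - q.2.1 ^ 2 = 1) (hg : GD q u) : (mkP q u).Good where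
  disc := hq
  ne := fun j => (fn_dt_pos hc hu (Fin.castSucc_lt_succ)).ne'
  d1 := fun j => by
    have h1 := (hg j).1
    rw [fn_dE, Int.natAbs_dvd] at h1
    exact h1
  d2 := fun j => by
    have h1 := (hg j).2
    rw [fn_dE, Int.natAbs_dvd] at h1
    exact h1

theorem fn_n {p : Prm k} (hc : 0 < p.c1) {C1 : ℝ} (hC1 : 1 ≤ C1) {X : ℕ} {u : Vec k}
    (hu : GP p X u) {q : ℤ × ℤ × ℤ} (hq : q ∈ AW C1 X) (hg : GD q u) (j : Fin k) :
    1 ≤ (mkP q u).n j ∧ ((mkP q u).n j : ℝ) ≤ 5 * C1 ^ 2 / p.c1 * X := by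
  obtain ⟨hd, ha, hb, hcc, _, a2, b2, c2⟩ := fn_AW hq
  have hG := fn_good hc hu hd hg
  have hdt := fn_dt_pos hc hu (i := j.castSucc) (j := j.succ) (Fin.castSucc_lt_succ)
  have hbf := hG.bf_eq j
  set v := u j.castSucc with hv
  set w := u j.succ with hw
  obtain ⟨v1, v2, v3⟩ := fn_coord hu j.castSucc
  obtain ⟨w1, w2, w3⟩ := fn_coord hu j.succ
  rw [← hv] at v1 v2 v3
  rw [← hw] at w1 w2 w3
  have e1 : bf q.1 q.2.1 q.2.2 v w = (bf q.1 q.2.1 q.2.2 v w / dt v w) * dt v w := hbf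
  have e2 : (mkP q u).n j = (bf q.1 q.2.1 q.2.2 v w / dt v w).natAbs := rfl
  set n : ℤ := bf q.1 q.2.1 q.2.2 v w / dt v w with hn
  have hpos : 0 < bf q.1 q.2.1 q.2.2 v w := by
    unfold bf
    unfold nm at v3 w3
    have t1 : 0 ≤ q.1 * v.1 * w.1 := by positivity
    have t2 : 0 ≤ q.2.1 * (v.1 * w.2 + v.2 * w.1) := by positivity
    have t3 : 0 ≤ q.2.2 * v.2 * w.2 := by positivity
    by_contra hcon
    have s1 : q.1 * v.1 * w.1 = 0 := by linarith
    have s2 : q.2.1 * (v.1 * w.2 + v.2 * w.1) = 0 := by linarith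
    have s3 : q.2.2 * v.2 * w.2 = 0 := by linarith
    have r1 : v.1 = 0 ∨ w.1 = 0 := by
      rcases mul_eq_zero.1 s1 with h | h
      · rcases mul_eq_zero.1 h with h | h
        · omega
        · exact Or.inl h
      · exact Or.inr h
    have r3 : v.2 = 0 ∨ w.2 = 0 := by
      rcases mul_eq_zero.1 s3 with h | h
      · rcases mul_eq_zero.1 h with h | h
        · omega
        · exact Or.inl h
      · exact Or.inr h
    have r2 : v.1 * w.2 + v.2 * w.1 = 0 := by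
      rcases mul_eq_zero.1 s2 with h | h
      · omega
      · exact h
    have r4 : v.1 * w.2 = 0 := by
      have : 0 ≤ v.1 * w.2 := mul_nonneg v1 w2
      have : 0 ≤ v.2 * w.1 := mul_nonneg v2 w1
      linarith
    have r5 : v.2 * w.1 = 0 := by linarith
    rcases r1 with h | h <;> rcases r3 with h' | h' <;>
      rcases mul_eq_zero.1 r4 with h4 | h4 <;> rcases mul_eq_zero.1 r5 with h5 | h5 <;> omega
  have hn0 : 0 < n := by
    by_contra hcon
    have : n * dt v w ≤ 0 := mul_nonpos_of_nonpos_of_nonneg (not_lt.1 hcon) hdt.le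
    linarith
  constructor
  · rw [e2]
    omega
  · have hsep := hu.sep j.castSucc j.succ (Fin.castSucc_lt_succ)
    rw [← hv, ← hw] at hsep
    have e3 : ((mkP q u).n j : ℝ) = (n : ℝ) := by
      rw [e2, Nat.cast_natAbs, abs_of_pos hn0]
    rw [e3]
    have hX0 : (0 : ℝ) ≤ X := Nat.cast_nonneg X
    have c12 : (1 : ℝ) ≤ C1 ^ 2 := by nlinarith
    have c13 : C1 ≤ C1 ^ 2 := by nlinarith
    have V1 : (0 : ℝ) ≤ (v.1 : ℝ) := by exact_mod_cast v1
    have V2 : (0 : ℝ) ≤ (v.2 : ℝ) := by exact_mod_cast v2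
    have W1 : (0 : ℝ) ≤ (w.1 : ℝ) := by exact_mod_cast w1
    have W2 : (0 : ℝ) ≤ (w.2 : ℝ) := by exact_mod_cast w2
    have hle : (bf q.1 q.2.1 q.2.2 v w : ℝ) ≤ 5 * C1 ^ 2 * X * ((nm v : ℝ) * (nm w : ℝ)) := by
      unfold bf nm
      push_cast
      have a3 : (q.1 : ℝ) ≤ 5 * C1 ^ 2 * X := by nlinarith
      have b3 : (q.2.1 : ℝ) ≤ 5 * C1 ^ 2 * X := by nlinarith
      have t1 : (q.1 : ℝ) * v.1 * w.1 ≤ 5 * C1 ^ 2 * X * (v.1 * w.1) := by
        rw [mul_assoc]; exact mul_le_mul_of_nonneg_right a3 (by positivity)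
      have t2 : (q.2.1 : ℝ) * (v.1 * w.2 + v.2 * w.1) ≤
          5 * C1 ^ 2 * X * (v.1 * w.2 + v.2 * w.1) :=
        mul_le_mul_of_nonneg_right b3 (by positivity)
      have t3 : (q.2.2 : ℝ) * v.2 * w.2 ≤ 5 * C1 ^ 2 * X * (v.2 * w.2) := by
        rw [mul_assoc]; exact mul_le_mul_of_nonneg_right c2 (by positivity)
      calc _ ≤ 5 * C1 ^ 2 * X * (v.1 * w.1) + 5 * C1 ^ 2 * X * (v.1 * w.2 + v.2 * w.1) +
            5 * C1 ^ 2 * X * (v.2 * w.2) := by linarith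
        _ = _ := by ring
    have e4 : (bf q.1 q.2.1 q.2.2 v w : ℝ) = (n : ℝ) * (dt v w : ℝ) := by exact_mod_cast e1
    have hN : (0 : ℝ) < (nm v : ℝ) * (nm w : ℝ) := by
      have h2 : (1 : ℝ) ≤ (nm v : ℝ) := by exact_mod_cast v3
      have h3 : (1 : ℝ) ≤ (nm w : ℝ) := by exact_mod_cast w3
      positivity
    have hnR : (0 : ℝ) < n := by exact_mod_cast hn0
    have h5 : (n : ℝ) * (p.c1 * ((nm v : ℝ) * (nm w : ℝ))) ≤
        5 * C1 ^ 2 * X * ((nm v : ℝ) * (nm w : ℝ)) :=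
      (mul_le_mul_of_nonneg_left hsep hnR.le).trans (e4 ▸ hle)
    have h6 : (n : ℝ) * p.c1 ≤ 5 * C1 ^ 2 * X := by
      have : (n : ℝ) * p.c1 * ((nm v : ℝ) * (nm w : ℝ)) ≤
          5 * C1 ^ 2 * X * ((nm v : ℝ) * (nm w : ℝ)) := by
        calc _ = (n : ℝ) * (p.c1 * ((nm v : ℝ) * (nm w : ℝ))) := by ring
          _ ≤ _ := h5
      exact le_of_mul_le_mul_right this hN
    rw [div_mul_eq_mul_div, le_div_iff₀ hc]
    exact h6

/-- the constants of the family -/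
theorem fn_Ft {p : Prm k} {X P00 : ℕ} {c' L : ℝ} (hc' : 0 < c') (hL : 0 < L)
    {q : ℤ × ℤ × ℤ} {u : Vec k} (hM : c' * L⁻¹ ≤ Mp p X P00 q (fE u)) :
    max 0 (Ft p X P00 q u) ≤ L / c' * W p X q u := by
  have hW := fn_W_nonneg p X q u
  have h0 : 0 ≤ L / c' * W p X q u := by positivity
  apply max_le h0
  unfold Ft
  split_ifs
  · unfold Fn
    have h1 : 0 < c' * L⁻¹ := by positivity
    calc W p X q u / Mp p X P00 q (fE u) ≤ W p X q u / (c' * L⁻¹) :=
          div_le_div_of_nonneg_left hW h1 hM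
      _ = L / c' * W p X q u := by field_simp
  · exact h0

theorem fn_Ft_zero {p : Prm k} {X P00 : ℕ} {q : ℤ × ℤ × ℤ} {u : Vec k} (h : ¬ GD q u) :
    Ft p X P00 q u = 0 := by
  have hW : W p X q u = 0 := by unfold W; rw [if_neg h]
  unfold Ft Fn
  rw [hW]
  simp

/-- the covering families -/
theorem fam01_of_nc {p : Prm k} (hk : Even k) (hk2 : 2 ≤ k) (hc : 0 < p.c1) {P00 : ℕ}
    (hP : 3 ≤ P00) {C1 δ : ℝ} (hC1 : 1 ≤ C1) (hδ : 0 < δ) (hLB : LB p) (hMAR : MAR p C1)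
    (hNC : NCst p P00 C1 (δ / 40)) : Fam01 δ C1 := by
  classical
  obtain ⟨c, C₂, hc0, hC₂, hLB⟩ := hLB
  obtain ⟨X1, hLB⟩ := hLB P00 hP
  obtain ⟨CM, η, hη, X2, hMAR⟩ := hMAR
  obtain ⟨X3, hNC⟩ := hNC
  set c' : ℝ := c * Real.log P00 ^ (-C₂) with hc'
  have hlP : 0 < Real.log P00 := Real.log_pos (by exact_mod_cast (by omega : 1 < P00))
  have hc'0 : 0 < c' := mul_pos hc0 (Real.rpow_pos_of_pos hlP _)
  refine ⟨k, 5 * C1 ^ 2 / p.c1, (1 / c') ^ (1 + η) * |CM| + 1, η, by omega, hk, ?_, hη,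
    max 3 (max X1 (max X2 X3)), ?_⟩
  · have : 0 ≤ (1 / c') ^ (1 + η) := Real.rpow_nonneg (by positivity) _
    positivity
  intro X hX ρ hρ1 hρ2
  simp only [ge_iff_le, max_le_iff] at hX
  obtain ⟨x3, x1, x2, x3'⟩ := hX
  obtain ⟨O, hO1, hO2, hO3, hav, hO4, hO5⟩ := hNC X x3' ρ hρ1 hρ2
  have hX3 : (3 : ℝ) ≤ X := by exact_mod_cast x3
  have hX0 : (0 : ℝ) < X := by linarith
  have hlX : 0 < Real.log X := Real.log_pos (by linarith)
  set L : ℝ := Real.log X ^ mE k with hL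
  have hL0 : 0 < L := Real.rpow_pos_of_pos hlX _
  have hLi : Real.log X ^ (-mE k) = L⁻¹ := Real.rpow_neg hlX.le _
  have hMp : ∀ q ∈ O, ∀ u ∈ GS p X, c' * L⁻¹ ≤ Mp p X P00 q (fE u) := by
    intro q hq u hu
    have h1 := hLB X x1 (fE u) (fn_fE (by omega) hk2 (fn_mem hu)) q (fn_AW (hO1 hq)).1
    rw [hLi] at h1
    exact h1
  set Z := (O ×ˢ GS p X).filter (fun z => GD z.1 z.2) with hZ
  set s : Finset (Pth k) := Z.image (fun z => mkP z.1 z.2) with hs
  set w : Pth k → ℝ := fun τ => max 0 (Ft p X P00 (τ.a, τ.b, τ.c) τ.u) with hw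
  have hmem : ∀ τ ∈ s, ∃ q ∈ O, ∃ u ∈ GS p X, GD q u ∧ mkP q u = τ := by
    intro τ hτ
    rw [hs, mem_image] at hτ
    obtain ⟨z, hz, rfl⟩ := hτ
    rw [hZ, mem_filter, mem_product] at hz
    exact ⟨z.1, hz.1.1, z.2, hz.1.2, hz.2, rfl⟩
  have hinj : Set.InjOn (fun z : (ℤ × ℤ × ℤ) × Vec k => mkP z.1 z.2) (Z : Set _) := by
    intro z _ z' _ h
    obtain ⟨h1, h2⟩ := mkP_inj h
    exact Prod.ext h1 h2
  have hsum : ∀ (Q : Pth k → Prop) [DecidablePred Q], ∑ τ ∈ s.filter Q, w τ =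
      ∑ q ∈ O, ∑ u ∈ (GS p X).filter (fun u => Q (mkP q u)), max 0 (Ft p X P00 q u) := by
    intro Q _
    rw [sum_filter, hs, sum_image hinj, hZ, sum_filter, sum_product]
    apply sum_congr rfl
    intro q _
    rw [sum_filter]
    apply sum_congr rfl
    intro u _
    by_cases hg : GD q u
    · rw [if_pos hg]
      rfl
    · rw [if_neg hg, fn_Ft_zero hg]
      simp
  refine ⟨s, w, ?_⟩
  refine
    { good := ?_, first := ?_, last := ?_, apos := ?_, bpos := ?_, w0 := ?_, n1 := ?_,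
      near := ?_, marg := ?_ }
  · intro τ hτ
    obtain ⟨q, hq, u, hu, hg, rfl⟩ := hmem τ hτ
    exact fn_good hc (fn_mem hu) (fn_AW (hO1 hq)).1 hg
  · intro τ hτ
    obtain ⟨q, hq, u, hu, hg, rfl⟩ := hmem τ hτ
    exact (fn_mem hu).first
  · intro τ hτ
    obtain ⟨q, hq, u, hu, hg, rfl⟩ := hmem τ hτ
    exact (fn_mem hu).last
  · intro τ hτ
    obtain ⟨q, hq, u, hu, hg, rfl⟩ := hmem τ hτ
    exact (fn_AW (hO1 hq)).2.1
  · intro τ hτ
    obtain ⟨q, hq, u, hu, hg, rfl⟩ := hmem τ hτ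
    exact (fn_AW (hO1 hq)).2.2.1
  · intro τ
    exact le_max_left _ _
  · intro τ hτ j
    obtain ⟨q, hq, u, hu, hg, rfl⟩ := hmem τ hτ
    exact fn_n hc hC1 (fn_mem hu) (hO1 hq) hg j
  · -- near
    set B1 := (Box X ρ).filter (fun y => ∀ q ∈ O, q.1 ≠ (y.1 : ℤ) ∨ q.2.1 ≠ (y.2 : ℤ)) with hB1
    set B2 := O.filter (fun q => 1 / 4 ≤ 1 - av p X q) with hB2
    set B3 := O.filter (fun q => 1 / 16 ≤ (∑ u ∈ GS p X, Ft p X P00 q u - av p X q) ^ 2) with hB3
    have c2 : (B2.card : ℝ) ≤ 4 * (δ / 40 * X) := by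
      have h1 : ∑ q ∈ B2, (1 / 4 : ℝ) ≤ ∑ q ∈ B2, (1 - av p X q) :=
        sum_le_sum fun q hq => (mem_filter.1 hq).2
      have h2 : ∑ q ∈ B2, (1 - av p X q) ≤ ∑ q ∈ O, (1 - av p X q) :=
        sum_le_sum_of_subset_of_nonneg (filter_subset _ _)
          fun q hq _ => sub_nonneg.2 (hav q hq)
      rw [sum_const, nsmul_eq_mul] at h1
      linarith
    have c3 : (B3.card : ℝ) ≤ 16 * (δ / 40 * X) := by
      have h1 : ∑ q ∈ B3, (1 / 16 : ℝ) ≤
          ∑ q ∈ B3, (∑ u ∈ GS p X, Ft p X P00 q u - av p X q) ^ 2 :=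
        sum_le_sum fun q hq => (mem_filter.1 hq).2
      have h2 : ∑ q ∈ B3, (∑ u ∈ GS p X, Ft p X P00 q u - av p X q) ^ 2 ≤
          ∑ q ∈ O, (∑ u ∈ GS p X, Ft p X P00 q u - av p X q) ^ 2 :=
        sum_le_sum_of_subset_of_nonneg (filter_subset _ _) fun q _ _ => sq_nonneg _
      rw [sum_const, nsmul_eq_mul] at h1
      linarith
    set N := (Box X ρ).filter (fun y => wb s w Pth.base y < 1 / 2) with hN
    have hwb : ∀ q ∈ O, ∑ u ∈ GS p X, Ft p X P00 q u ≤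
        wb s w Pth.base (q.1.natAbs, q.2.1.natAbs) := by
      intro q hq
      unfold wb
      rw [hsum]
      have h1 : ∑ u ∈ GS p X, Ft p X P00 q u ≤
          ∑ u ∈ (GS p X).filter (fun u => (mkP q u).base = (q.1.natAbs, q.2.1.natAbs)),
            max 0 (Ft p X P00 q u) := by
        have e0 : (GS p X).filter (fun u => (mkP q u).base = (q.1.natAbs, q.2.1.natAbs)) =
            GS p X := filter_true_of_mem (fun u _ => rfl)
        rw [e0]
        exact sum_le_sum fun u _ => le_max_right _ _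
      refine h1.trans ?_
      exact single_le_sum (f := fun q' => ∑ u ∈ (GS p X).filter
        (fun u => (mkP q' u).base = (q.1.natAbs, q.2.1.natAbs)), max 0 (Ft p X P00 q' u))
        (fun q' _ => sum_nonneg fun u _ => le_max_left _ _) hq
    have hex : ∀ y ∈ N \ B1, ∃ q ∈ B2 ∪ B3, q.1 = (y.1 : ℤ) ∧ q.2.1 = (y.2 : ℤ) := by
      intro y hy
      rw [mem_sdiff, hN, mem_filter, hB1, mem_filter] at hy
      obtain ⟨⟨hyB, hyw⟩, hy2⟩ := hy
      have h1 : ∃ q ∈ O, q.1 = (y.1 : ℤ) ∧ q.2.1 = (y.2 : ℤ) := by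
        by_contra hcon
        push Not at hcon
        apply hy2
        refine ⟨hyB, fun q hq => ?_⟩
        by_cases h2 : q.1 = (y.1 : ℤ)
        · exact Or.inr (hcon q hq h2)
        · exact Or.inl h2
      obtain ⟨q, hq, e1, e2⟩ := h1
      refine ⟨q, ?_, e1, e2⟩
      have h2 := hwb q hq
      rw [e1, e2, Int.natAbs_natCast, Int.natAbs_natCast] at h2
      rw [mem_union]
      by_cases h3 : 1 / 4 ≤ 1 - av p X q
      · exact Or.inl (mem_filter.2 ⟨hq, h3⟩)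
      · right
        rw [hB3, mem_filter]
        refine ⟨hq, ?_⟩
        have h4 : ∑ u ∈ GS p X, Ft p X P00 q u < 1 / 2 := lt_of_le_of_lt h2 hyw
        nlinarith
    have hcard : (N \ B1).card ≤ (B2 ∪ B3).card := by
      choose! g hg1 hg2 using hex
      apply Finset.card_le_card_of_injOn g
      · intro y hy
        exact hg1 y hy
      · intro y hy y' hy' he
        have a1 := hg2 y hy
        have a2 := hg2 y' hy'
        rw [he] at a1
        refine Prod.ext ?_ ?_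
        · have := a1.1.symm.trans a2.1
          exact_mod_cast this
        · have := a1.2.symm.trans a2.2
          exact_mod_cast this
    have hle : N.card ≤ B1.card + (B2.card + B3.card) := by
      calc N.card ≤ (B1 ∪ (N \ B1)).card := card_le_card (by
            intro y hy
            by_cases h : y ∈ B1 <;> simp [hy, h])
        _ ≤ B1.card + (N \ B1).card := card_union_le _ _
        _ ≤ B1.card + (B2.card + B3.card) := by
            have := card_union_le B2 B3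
            omega
    have hle' : (N.card : ℝ) ≤ B1.card + (B2.card + B3.card) := by exact_mod_cast hle
    nlinarith [mul_pos hδ hX0]
  · -- marginals
    intro j E
    have h1 : ∀ n : ℕ, mar s w (fun τ => τ.n j) n ≤
        L / c' * ∑ q ∈ AW C1 X, ∑ u ∈ (GS p X).filter (fun u => nj q u j = n), W p X q u := by
      intro n
      unfold mar
      rw [hsum]
      rw [mul_sum]
      have h2 : ∀ q ∈ O, ∑ u ∈ (GS p X).filter (fun u => (mkP q u).n j = n),
          max 0 (Ft p X P00 q u) ≤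
          L / c' * ∑ u ∈ (GS p X).filter (fun u => nj q u j = n), W p X q u := by
        intro q hq
        rw [mul_sum]
        apply sum_le_sum
        intro u hu
        rw [mem_filter] at hu
        exact fn_Ft hc'0 hL0 (hMp q hq u hu.1)
      refine (sum_le_sum h2).trans ?_
      apply sum_le_sum_of_subset_of_nonneg hO1
      intro q _ _
      exact mul_nonneg (by positivity) (sum_nonneg fun u _ => fn_W_nonneg p X q u)
    have h3 : ∀ n : ℕ, 0 ≤ ∑ q ∈ AW C1 X, ∑ u ∈ (GS p X).filter (fun u => nj q u j = n),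
        W p X q u := fun n => sum_nonneg fun q _ => sum_nonneg fun u _ => fn_W_nonneg p X q u
    calc ∑ n ∈ E, mar s w (fun τ => τ.n j) n ^ (1 + η)
        ≤ ∑ n ∈ E, (L / c') ^ (1 + η) * (∑ q ∈ AW C1 X,
            ∑ u ∈ (GS p X).filter (fun u => nj q u j = n), W p X q u) ^ (1 + η) := by
          apply sum_le_sum
          intro n _
          rw [← Real.mul_rpow (by positivity) (h3 n)]
          exact Real.rpow_le_rpow (mar_nonneg s (fun τ => le_max_left _ _) _ n) (h1 n)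
            (by linarith)
      _ = (L / c') ^ (1 + η) * ∑ n ∈ E, (∑ q ∈ AW C1 X,
            ∑ u ∈ (GS p X).filter (fun u => nj q u j = n), W p X q u) ^ (1 + η) := by
          rw [mul_sum]
      _ ≤ (L / c') ^ (1 + η) * (CM * X * Real.log X ^ (-mE k * (1 + η))) :=
          mul_le_mul_of_nonneg_left (hMAR X x2 j E) (Real.rpow_nonneg (by positivity) _)
      _ ≤ ((1 / c') ^ (1 + η) * |CM| + 1) * X := by
          have e1 : Real.log X ^ (-mE k * (1 + η)) = (L ^ (1 + η))⁻¹ := by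
            rw [Real.rpow_mul hlX.le, hLi, Real.inv_rpow hL0.le]
          have e2 : (L / c') ^ (1 + η) = L ^ (1 + η) * (1 / c') ^ (1 + η) := by
            rw [← Real.mul_rpow hL0.le (by positivity)]
            congr 1
            ring
          have hL1 : 0 < L ^ (1 + η) := Real.rpow_pos_of_pos hL0 _
          have hc1 : 0 ≤ (1 / c') ^ (1 + η) := Real.rpow_nonneg (by positivity) _
          rw [e1, e2]
          calc L ^ (1 + η) * (1 / c') ^ (1 + η) * (CM * X * (L ^ (1 + η))⁻¹)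
              = (1 / c') ^ (1 + η) * CM * X * (L ^ (1 + η) * (L ^ (1 + η))⁻¹) := by ring
            _ = (1 / c') ^ (1 + η) * CM * X := by rw [mul_inv_cancel₀ hL1.ne', mul_one]
            _ ≤ (1 / c') ^ (1 + η) * |CM| * X := by
                apply mul_le_mul_of_nonneg_right _ hX0.le
                exact mul_le_mul_of_nonneg_left (le_abs_self _) hc1
            _ ≤ _ := by nlinarith

end Pool.Agent.PATH.NC
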