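import Pool.Agent.Lib_helper8.PENT.Frame

/-!
# PATH (MP_892e4c_nt, both signs): open paths of vectors (helper97)

1. the identity `∏ h (n_j² + 1) = h (Q(u_0)) h (Q(u_k))` for a good path `u_0, ..., u_k`;
2. the dual step: a weighted family of good paths from `(1, 0)` to `v` which covers almost all
forms `Q = (a, b, c)` and whose marginals `n_j` are bounded in `L^(1+η)`.
-/

set_option autoImplicit false

namespace Pool.Agent.PATH

open Finset Pool.Agent.PENT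

/-- a form and `k + 1` vectors -/
structure Pth (k : ℕ) where
  a : ℤ
  b : ℤ
  c : ℤ
  u : Fin (k + 1) → ℤ × ℤ

namespace Pth

variable {k : ℕ}

/-- the value of the form at the vertex `j` -/
def q (τ : Pth k) (j : Fin (k + 1)) : ℤ := qf τ.a τ.b τ.c (τ.u j)

/-- the determinant `d_j` of the edge `j` -/
def d (τ : Pth k) (j : Fin k) : ℤ := dt (τ.u j.castSucc) (τ.u j.succ)

/-- the number `n_j = Q(u_j, u_(j+1)) / d_j` of the edge `j`, up to sign -/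
def n (τ : Pth k) (j : Fin k) : ℕ :=
  (bf τ.a τ.b τ.c (τ.u j.castSucc) (τ.u j.succ) / τ.d j).natAbs

/-- good paths -/
structure Good (τ : Pth k) : Prop where
  disc : τ.a * τ.c - τ.b ^ 2 = 1
  ne : ∀ j, τ.d j ≠ 0
  d1 : ∀ j : Fin k, τ.d j ∣ τ.q j.castSucc
  d2 : ∀ j : Fin k, τ.d j ∣ τ.q j.succ

theorem Good.bf_eq {τ : Pth k} (hτ : τ.Good) (j : Fin k) :
    bf τ.a τ.b τ.c (τ.u j.castSucc) (τ.u j.succ) =
      (bf τ.a τ.b τ.c (τ.u j.castSucc) (τ.u j.succ) / τ.d j) * τ.d j := by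
  obtain ⟨n, hn⟩ := edge_exists hτ.disc (hτ.d1 j) (hτ.d2 j)
  have h1 : τ.d j ∣ bf τ.a τ.b τ.c (τ.u j.castSucc) (τ.u j.succ) := ⟨n, by
    rw [hn]; exact mul_comm _ _⟩
  exact (Int.ediv_mul_cancel h1).symm

/-- `(n_j² + 1) d_j² = Q(u_j) Q(u_(j+1))` -/
theorem Good.edge {τ : Pth k} (hτ : τ.Good) (j : Fin k) :
    ((τ.n j : ℤ) ^ 2 + 1) * τ.d j ^ 2 = τ.q j.castSucc * τ.q j.succ := by
  have h1 := edge_eq hτ.disc (hτ.bf_eq j)
  rw [n, Int.natCast_natAbs, sq_abs]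
  exact h1

theorem Good.edge_nat {τ : Pth k} (hτ : τ.Good) (j : Fin k) :
    (τ.n j ^ 2 + 1) * (τ.d j).natAbs ^ 2 = (τ.q j.castSucc).natAbs * (τ.q j.succ).natAbs := by
  have h1 := congrArg Int.natAbs (hτ.edge j)
  rw [Int.natAbs_mul, Int.natAbs_mul, Int.natAbs_pow] at h1
  have h2 : ((τ.n j : ℤ) ^ 2 + 1).natAbs = τ.n j ^ 2 + 1 := by
    have : ((τ.n j : ℤ) ^ 2 + 1) = ((τ.n j ^ 2 + 1 : ℕ) : ℤ) := by push_cast; ring
    rw [this, Int.natAbs_natCast]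
  rw [h2] at h1
  exact h1

theorem Good.q_pos {τ : Pth k} (hτ : τ.Good) (j : Fin k) :
    0 < (τ.q j.castSucc).natAbs ∧ 0 < (τ.q j.succ).natAbs := by
  have h1 := hτ.edge_nat j
  have h2 : 0 < (τ.n j ^ 2 + 1) * (τ.d j).natAbs ^ 2 := by
    have := Int.natAbs_pos.2 (hτ.ne j)
    positivity
  rw [h1] at h2
  exact ⟨Nat.pos_of_mul_pos_right h2, Nat.pos_of_mul_pos_left h2⟩

theorem cm_sq_one {h : ℕ → ℤ} (hh : CM h) {n : ℕ} (hn : 0 < n) : h n * h n = 1 := by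
  rcases hh.val n hn with e | e <;> rw [e] <;> norm_num

/-- one edge -/
theorem Good.h_edge {h : ℕ → ℤ} (hh : CM h) {τ : Pth k} (hτ : τ.Good) (j : Fin k) :
    h (τ.n j ^ 2 + 1) = h (τ.q j.castSucc).natAbs * h (τ.q j.succ).natAbs := by
  have h1 := congrArg h (hτ.edge_nat j)
  obtain ⟨p1, p2⟩ := hτ.q_pos j
  have p3 := Int.natAbs_pos.2 (hτ.ne j)
  rw [hh.mul _ _ (Nat.succ_pos _) (pow_pos p3 2), hh.sq p3, mul_one, hh.mul _ _ p1 p2] at h1
  exact h1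

/-- THE PATH IDENTITY (for the first `i` edges) -/
theorem Good.identity_aux {h : ℕ → ℤ} (hh : CM h) {τ : Pth k} (hτ : τ.Good) :
    ∀ i : ℕ, ∀ hi : i + 1 ≤ k, ∏ j ∈ (univ : Finset (Fin k)).filter (fun j => j.val < i + 1),
      h (τ.n j ^ 2 + 1) = h (τ.q 0).natAbs * h (τ.q ⟨i + 1, by omega⟩).natAbs := by
  intro i
  induction i with
  | zero =>
    intro hi
    have e : (univ : Finset (Fin k)).filter (fun j => j.val < 0 + 1) = {⟨0, by omega⟩} := by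
      ext j
      simp only [mem_filter, mem_univ, true_and, mem_singleton, Fin.ext_iff]
      omega
    rw [e, prod_singleton]
    exact hτ.h_edge hh ⟨0, by omega⟩
  | succ i ih =>
    intro hi
    have e : (univ : Finset (Fin k)).filter (fun j => j.val < i + 1 + 1) =
        insert ⟨i + 1, by omega⟩ ((univ : Finset (Fin k)).filter (fun j => j.val < i + 1)) := by
      ext j
      simp only [mem_filter, mem_univ, true_and, mem_insert, Fin.ext_iff]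
      omega
    rw [e, prod_insert (by simp), ih (by omega), hτ.h_edge hh ⟨i + 1, by omega⟩]
    have p := (hτ.q_pos ⟨i + 1, by omega⟩).1
    have p1 := cm_sq_one hh p
    have e1 : (⟨i + 1, by omega⟩ : Fin k).castSucc = (⟨i + 1, by omega⟩ : Fin (k + 1)) := rfl
    have e2 : (⟨i + 1, by omega⟩ : Fin k).succ = (⟨i + 1 + 1, by omega⟩ : Fin (k + 1)) := rfl
    rw [e1] at p1
    rw [e1, e2]
    calc h (τ.q ⟨i + 1, by omega⟩).natAbs * h (τ.q ⟨i + 1 + 1, by omega⟩).natAbs *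
          (h (τ.q 0).natAbs * h (τ.q ⟨i + 1, by omega⟩).natAbs)
        = (h (τ.q ⟨i + 1, by omega⟩).natAbs * h (τ.q ⟨i + 1, by omega⟩).natAbs) *
          (h (τ.q 0).natAbs * h (τ.q ⟨i + 1 + 1, by omega⟩).natAbs) := by ring
      _ = _ := by rw [p1, one_mul]

/-- THE PATH IDENTITY -/
theorem Good.identity {h : ℕ → ℤ} (hh : CM h) {τ : Pth k} (hτ : τ.Good) (hk : 0 < k) :
    ∏ j, h (τ.n j ^ 2 + 1) = h (τ.q 0).natAbs * h (τ.q (Fin.last k)).natAbs := by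
  obtain ⟨i, rfl⟩ : ∃ i, k = i + 1 := ⟨k - 1, by omega⟩
  have h1 := hτ.identity_aux hh i le_rfl
  have e : (univ : Finset (Fin (i + 1))).filter (fun j => j.val < i + 1) = univ := by
    ext j
    simp only [mem_filter, mem_univ, true_and, iff_true]
    exact j.2
  rw [e] at h1
  exact h1

/-- if the end values differ, then every sign occurs on a path of even length -/
theorem Good.exists_sign {h : ℕ → ℤ} (hh : CM h) {τ : Pth k} (hτ : τ.Good) (hk : 0 < k)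
    (hk2 : Even k) (hne : h (τ.q 0).natAbs ≠ h (τ.q (Fin.last k)).natAbs) {s : ℤ}
    (hs : s = 1 ∨ s = -1) : ∃ j, h (τ.n j ^ 2 + 1) = s := by
  by_contra hc
  push Not at hc
  have hall : ∀ j, h (τ.n j ^ 2 + 1) = -s := by
    intro j
    have h1 := hh.val _ (Nat.succ_pos (τ.n j ^ 2))
    have h2 := hc j
    rcases hs with rfl | rfl <;> rcases h1 with h1 | h1 <;> simp_all
  have h3 := hτ.identity hh hk
  rw [Finset.prod_congr rfl (fun j _ => hall j), Finset.prod_const, Finset.card_univ,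
    Fintype.card_fin] at h3
  have h4 : (-s) ^ k = 1 := by
    rcases hs with rfl | rfl
    · exact hk2.neg_one_pow
    · simp
  rw [h4] at h3
  obtain ⟨k0, rfl⟩ : ∃ i, k = i + 1 := ⟨k - 1, by omega⟩
  have p1 := (hτ.q_pos 0).1
  have p2 := (hτ.q_pos (Fin.last k0)).2
  have e1 : (0 : Fin (k0 + 1)).castSucc = 0 := rfl
  have e2 : (Fin.last k0).succ = Fin.last (k0 + 1) := rfl
  rw [e1] at p1
  rw [e2] at p2
  apply hne
  rcases hh.val _ p1 with a1 | a1 <;> rcases hh.val _ p2 with a2 | a2 <;>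
    rw [a1, a2] at h3 ⊢ <;> norm_num at h3

end Pth

/-! ### 2. The dual step -/

/-- the forms of the box: pairs `(a, b)` with `X < a ≤ 2 X`, `ρ X < b ≤ 2 ρ X`, `a ∣ b² + 1` -/
noncomputable def Box (X : ℕ) (ρ : ℝ) : Finset (ℕ × ℕ) :=
  ((Ioc X (2 * X)) ×ˢ (Icc 1 ⌊2 * ρ * X⌋₊)).filter
    (fun y => ρ * X < (y.2 : ℝ) ∧ y.1 ∣ y.2 ^ 2 + 1)

/-- the value of the form `(a, b, (b² + 1) / a)` at `v` -/
def qv (y : ℕ × ℕ) (v : ℕ × ℕ) : ℕ :=
  y.1 * v.1 ^ 2 + 2 * y.2 * v.1 * v.2 + (y.2 ^ 2 + 1) / y.1 * v.2 ^ 2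

/-- the form of a path -/
def Pth.base {k : ℕ} (τ : Pth k) : ℕ × ℕ := (τ.a.natAbs, τ.b.natAbs)

/-- a weighted family of good paths from `(1, 0)` to `v` over the forms of the box -/
structure Fam (k X : ℕ) (v : ℕ × ℕ) (ρ δ C K η : ℝ) (s : Finset (Pth k)) (w : Pth k → ℝ) :
    Prop where
  good : ∀ τ ∈ s, τ.Good
  first : ∀ τ ∈ s, τ.u 0 = (1, 0)
  last : ∀ τ ∈ s, τ.u (Fin.last k) = ((v.1 : ℤ), (v.2 : ℤ))
  apos : ∀ τ ∈ s, 0 < τ.a
  bpos : ∀ τ ∈ s, 0 < τ.b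
  w0 : ∀ τ, 0 ≤ w τ
  n1 : ∀ τ ∈ s, ∀ j, 1 ≤ τ.n j ∧ (τ.n j : ℝ) ≤ C * X
  near : (((Box X ρ).filter (fun y => wb s w Pth.base y < 1 / 2)).card : ℝ) ≤ δ * X
  marg : ∀ (j : Fin k) (E : Finset ℕ), ∑ n ∈ E, mar s w (fun τ => τ.n j) n ^ (1 + η) ≤ K * X

end Pool.Agent.PATH
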