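import Pool.Agent.Lib_helper97.PATH.Frame

/-!
# PATH: from a covering family of paths to the rigidity `h (a) = h (Q(v))` (helper97)
-/

set_option autoImplicit false

namespace Pool.Agent.PATH

open Finset Pool.Agent.PENT

theorem Pth.q_zero {k : ℕ} {τ : Pth k} (h0 : τ.u 0 = (1, 0)) (ha : 0 < τ.a) :
    (τ.q 0).natAbs = τ.base.1 := by
  unfold Pth.q qf Pth.base
  rw [h0]
  simp

theorem Pth.q_last {k : ℕ} {τ : Pth k} (hτ : τ.Good) {v : ℕ × ℕ}
    (hv : τ.u (Fin.last k) = ((v.1 : ℤ), (v.2 : ℤ))) (ha : 0 < τ.a) (hb : 0 < τ.b) :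
    (τ.q (Fin.last k)).natAbs = qv τ.base v := by
  unfold Pth.q qf Pth.base qv
  rw [hv]
  have h1 := hτ.disc
  obtain ⟨a, ea⟩ := Int.eq_ofNat_of_zero_le ha.le
  obtain ⟨b, eb⟩ := Int.eq_ofNat_of_zero_le hb.le
  have hc : 0 < τ.c := by
    by_contra hc
    have h2 : τ.a * τ.c ≤ 0 := mul_nonpos_of_nonneg_of_nonpos ha.le (not_lt.1 hc)
    nlinarith [sq_nonneg τ.b]
  obtain ⟨c, ec⟩ := Int.eq_ofNat_of_zero_le hc.le
  rw [ea, eb, ec] at h1 ⊢
  simp only [Int.natAbs_natCast]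
  have ha' : 0 < a := by
    rw [ea] at ha; exact_mod_cast ha
  have h2 : a * c = b ^ 2 + 1 := by
    have : (a : ℤ) * c = (b : ℤ) ^ 2 + 1 := by linarith
    exact_mod_cast this
  rw [← h2, Nat.mul_div_cancel_left _ ha']
  have : ((a : ℤ) * (v.1 : ℤ) ^ 2 + 2 * (b : ℤ) * (v.1 : ℤ) * (v.2 : ℤ) + (c : ℤ) * (v.2 : ℤ) ^ 2) =
      ((a * v.1 ^ 2 + 2 * b * v.1 * v.2 + c * v.2 ^ 2 : ℕ) : ℤ) := by push_cast; ring
  rw [this, Int.natAbs_natCast]

/-- the dual step for a covering family -/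
theorem fam_dual {h : ℕ → ℤ} (hh : CM h) {k X : ℕ} (hX : 0 < X) (hk : 0 < k) (hk2 : Even k)
    {v : ℕ × ℕ} {ρ δ C K η : ℝ} {s : Finset (Pth k)} {w : Pth k → ℝ}
    (F : Fam k X v ρ δ C K η s w) (hδ : 0 < δ) (hK : 0 < K) (hη : 0 < η) {σ : ℤ}
    (hσ : σ = 1 ∨ σ = -1) {N : ℕ} (hN : C * X ≤ N)
    (hE : (((Icc 1 N).filter (fun n => h (n ^ 2 + 1) = σ)).card : ℝ) <
      X * ((k : ℝ) ^ (1 + η) * (K * (2 / δ) ^ (1 + η))) ^ (-(1 / η))) :
    (((Box X ρ).filter (fun y => h y.1 ≠ h (qv y v))).card : ℝ) ≤ 2 * δ * X := by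
  classical
  by_contra hc
  rw [not_le] at hc
  set E := (Icc 1 N).filter (fun n => h (n ^ 2 + 1) = σ) with hEd
  set B := (Box X ρ).filter (fun y => h y.1 ≠ h (qv y v)) with hB
  set L := (Box X ρ).filter (fun y => wb s w Pth.base y < 1 / 2) with hL
  have hX0 : (0 : ℝ) < X := by exact_mod_cast hX
  have hBL : δ * X ≤ ((B \ L).card : ℝ) := by
    have h1 : B.card ≤ (B \ L).card + L.card := by
      have := Finset.card_le_card (show B ⊆ (B \ L) ∪ L by
        intro y hy; by_cases h : y ∈ L <;> simp [hy, h])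
      exact this.trans (Finset.card_union_le _ _)
    have h2 : (B.card : ℝ) ≤ (B \ L).card + L.card := by exact_mod_cast h1
    have h3 := F.near
    linarith
  -- the family over the bad forms
  set s' := s.filter (fun τ => τ.base ∈ B \ L) with hs'
  have hS : δ * X / 2 ≤ ∑ τ ∈ s', w τ := by
    have h1 : ∑ τ ∈ s', w τ = ∑ y ∈ B \ L, wb s w Pth.base y := by
      rw [← Finset.sum_fiberwise_of_maps_to (s := s') (t := B \ L) (g := Pth.base)
        (fun τ hτ => (Finset.mem_filter.1 hτ).2)]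
      apply Finset.sum_congr rfl
      intro y hy
      unfold wb
      apply Finset.sum_congr _ (fun _ _ => rfl)
      ext τ
      simp only [hs', Finset.mem_filter]
      constructor
      · rintro ⟨⟨a1, _⟩, a2⟩
        exact ⟨a1, a2⟩
      · rintro ⟨a1, a2⟩
        exact ⟨⟨a1, by rw [a2]; exact hy⟩, a2⟩
    rw [h1]
    calc δ * X / 2 ≤ ((B \ L).card : ℝ) * (1 / 2) := by linarith
      _ = ∑ y ∈ B \ L, (1 / 2 : ℝ) := by rw [Finset.sum_const, nsmul_eq_mul]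
      _ ≤ _ := by
        apply Finset.sum_le_sum
        intro y hy
        rw [Finset.mem_sdiff] at hy
        by_contra h2
        exact hy.2 (Finset.mem_filter.2 ⟨(Finset.mem_filter.1 hy.1).1, not_le.1 h2⟩)
  have hSpos : 0 < ∑ τ ∈ s', w τ := lt_of_lt_of_le (by positivity) hS
  have hd : (0 : ℝ) < 2 / δ := by positivity
  have hK' : 0 < K * (2 / δ) ^ (1 + η) := mul_pos hK (Real.rpow_pos_of_pos hd _)
  have key := dual_step s' w F.w0 hk (fun j τ => τ.n j) E (x := X) (η := η)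
    (K := K * (2 / δ) ^ (1 + η)) ?_ hX0 hη hK' hSpos ?_
  · linarith
  · intro τ hτ _
    rw [hs', Finset.mem_filter] at hτ
    have hg := F.good τ hτ.1
    have ha := F.apos τ hτ.1
    have hb := F.bpos τ hτ.1
    have hbad : h (τ.q 0).natAbs ≠ h (τ.q (Fin.last k)).natAbs := by
      rw [Pth.q_zero (F.first τ hτ.1) ha, Pth.q_last hg (F.last τ hτ.1) ha hb]
      exact (Finset.mem_filter.1 (Finset.mem_sdiff.1 hτ.2).1).2
    obtain ⟨j, hj⟩ := hg.exists_sign hh hk hk2 hbad hσ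
    refine ⟨j, ?_⟩
    rw [hEd, Finset.mem_filter, Finset.mem_Icc]
    obtain ⟨n1, n2⟩ := F.n1 τ hτ.1 j
    exact ⟨⟨n1, by exact_mod_cast n2.trans hN⟩, hj⟩
  · intro j
    have h1 : ∑ n ∈ E, mar s' w (fun τ => τ.n j) n ^ (1 + η) ≤
        ∑ n ∈ E, mar s w (fun τ => τ.n j) n ^ (1 + η) := by
      apply Finset.sum_le_sum
      intro n _
      apply Real.rpow_le_rpow (mar_nonneg s' F.w0 _ n) _ (by linarith)
      unfold mar
      apply Finset.sum_le_sum_of_subset_of_nonneg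
      · exact Finset.filter_subset_filter _ (Finset.filter_subset _ _)
      · intro τ _ _
        exact F.w0 τ
    refine (h1.trans (F.marg j E)).trans ?_
    have h2 : (X : ℝ) ≤ (2 / δ) ^ (1 + η) * (∑ τ ∈ s', w τ) ^ (1 + η) * (X : ℝ) ^ (-η) := by
      rw [← Real.mul_rpow hd.le hSpos.le]
      have h3 : (X : ℝ) ≤ 2 / δ * ∑ τ ∈ s', w τ := by
        calc (X : ℝ) = 2 / δ * (δ * X / 2) := by field_simp
          _ ≤ _ := mul_le_mul_of_nonneg_left hS hd.le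
      have h4 : (X : ℝ) ^ (1 + η) ≤ (2 / δ * ∑ τ ∈ s', w τ) ^ (1 + η) :=
        Real.rpow_le_rpow hX0.le h3 (by linarith)
      calc (X : ℝ) = (X : ℝ) ^ (1 + η) * (X : ℝ) ^ (-η) := by
            rw [← Real.rpow_add hX0]; simp
        _ ≤ _ := mul_le_mul_of_nonneg_right h4 (Real.rpow_nonneg hX0.le _)
    calc K * (X : ℝ) ≤ K * ((2 / δ) ^ (1 + η) * (∑ τ ∈ s', w τ) ^ (1 + η) * (X : ℝ) ^ (-η)) :=
          mul_le_mul_of_nonneg_left h2 hK.le
      _ = _ := by ring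

end Pool.Agent.PATH
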