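import Pool.Agent.Lib_helper97.PATH.Dual

/-!
# PATH: the interface between the two parts (helper97)

`FamStmt A' δ C1`: covering families for all end vectors `|v| ≤ (log X)^A'` (Part I).
`PTStmt A' δ C1`: the rigidity (input of Part II).
-/

set_option autoImplicit false

namespace Pool.Agent.PATH

open Finset Pool.Agent.PENT

/-- covering families for all end vectors `v`, all ratios `ρ` (Part I) -/
def FamStmt (A' δ C1 : ℝ) : Prop := ∃ (k : ℕ) (C K η : ℝ), 0 < k ∧ Even k ∧ 0 < K ∧ 0 < η ∧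
  ∃ X₀ : ℕ, ∀ X ≥ X₀, ∀ v : ℕ × ℕ, Nat.Coprime v.1 v.2 → 0 < v.2 →
    (v.1 : ℝ) + v.2 ≤ Real.log X ^ A' → ∀ ρ : ℝ, 1 / C1 ≤ ρ → ρ ≤ C1 →
      ∃ (s : Finset (Pth k)) (w : Pth k → ℝ), Fam k X v ρ δ C K η s w

/-- the rigidity: if one sign is rare then `h (a) = h (Q(v))` for almost all forms -/
def PTStmt (A' δ C1 : ℝ) : Prop := ∃ (c : ℝ) (N : ℕ), 0 < c ∧ ∃ X₀ : ℕ,
  ∀ h : ℕ → ℤ, CM h → ∀ X ≥ X₀, ∀ σ : ℤ, (σ = 1 ∨ σ = -1) →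
    (((Icc 1 (N * X)).filter (fun n => h (n ^ 2 + 1) = σ)).card : ℝ) < c * X →
    ∀ v : ℕ × ℕ, Nat.Coprime v.1 v.2 → 0 < v.2 → (v.1 : ℝ) + v.2 ≤ Real.log X ^ A' →
      ∀ ρ : ℝ, 1 / C1 ≤ ρ → ρ ≤ C1 →
        (((Box X ρ).filter (fun y => h y.1 ≠ h (qv y v))).card : ℝ) ≤ δ * X

theorem PT_of_fam {A' δ C1 : ℝ} (hδ : 0 < δ) (hF : FamStmt A' (δ / 2) C1) : PTStmt A' δ C1 := by
  obtain ⟨k, C, K, η, hk, hk2, hK, hη, X₀, hF⟩ := hF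
  refine ⟨((k : ℝ) ^ (1 + η) * (K * (2 / (δ / 2)) ^ (1 + η))) ^ (-(1 / η)), ⌈C⌉₊, ?_,
    max X₀ 1, ?_⟩
  · have h1 : 0 < (k : ℝ) ^ (1 + η) := Real.rpow_pos_of_pos (by exact_mod_cast hk) _
    have h2 : 0 < (2 / (δ / 2)) ^ (1 + η) := Real.rpow_pos_of_pos (by positivity) _
    exact Real.rpow_pos_of_pos (mul_pos h1 (mul_pos hK h2)) _
  · intro h hh X hX σ hσ hE v hv hv2 hvl ρ h1 h2
    obtain ⟨s, w, F⟩ := hF X ((le_max_left _ _).trans hX) v hv hv2 hvl ρ h1 h2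
    have hX1 : 0 < X := by
      have := (le_max_right X₀ 1).trans hX
      omega
    have hN : C * X ≤ ((⌈C⌉₊ * X : ℕ) : ℝ) := by
      push_cast
      exact mul_le_mul_of_nonneg_right (Nat.le_ceil C) (Nat.cast_nonneg X)
    rw [mul_comm _ (X : ℝ)] at hE
    have := fam_dual hh hX1 hk hk2 F (by positivity) hK hη hσ hN hE
    calc _ ≤ 2 * (δ / 2) * X := this
      _ = δ * X := by ring

end Pool.Agent.PATH
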